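import Pool.Agent.H648.Q.Defs2
import Pool.Graph.R_seed8.W349.GS.Dec

/-!
# Project Q648, DECI: the decomposition for general multiplicative functions, imaginary orders
(port of `Pool.Agent.W349.GS.dec_of`).
-/

set_option autoImplicit false

namespace Pool.Agent.H161.Q648

open Finset Filter
open Pool.Agent.H376R2.MR hiding GG Sm
open Pool.Agent.W78.GA hiding GG PE S_DEC S_MOM0 S_MOMP S_MOM S_CELLE S_MR
open Pool.Agent.W638.GA hiding one_term GG_eq sum_eq dec_of
open Pool.Agent.H648.Q2.I (Pf GG PE)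

variable {t c : ℤ} {Ap Bp M : ℕ → Prop} {E : ℕ} {ρ : ℕ → ℤ} {ϖ : ℕ → Qd t c} {F : Qd t c → ℤ}

/-- the value of the term of `z` in the part of content `n`, without `F z` -/
noncomputable def Vg (F : Qd t c → ℤ) (m n : ℕ) (lZ : ℝ) (z : Qd t c) : ℝ :=
  (F ((n : ℕ) : Qd t c) : ℝ) * w (Real.log (nm z) + 2 * Real.log n - Real.log m - lZ) / (n : ℝ) ^ 2

open scoped Classical in
/-- the contribution of the non-primitive products -/
noncomputable def dG (F : Qd t c → ℤ) (M : ℕ → Prop) (ϖ : ℕ → Qd t c) (H v₀ v₁ : ℕ) (Y : ℝ)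
    (z : Qd t c) : ℝ :=
  ∑ v ∈ Ico v₀ v₁, ∑ m ∈ cellM M H v, ∑ n ∈ m.divisors.erase 1,
    if ∃ u : Qd t c, prim u ∧ ϖ m * u = (n : Qd t c) * z then
      Vg F m n (Real.log Y - (v : ℝ) / H) z else 0

theorem natCast_ne_zero' {n : ℕ} (hn : 0 < n) : ((n : ℕ) : Qd t c) ≠ 0 := by
  intro h
  have h1 := congrArg QuadraticAlgebra.re h
  rw [QuadraticAlgebra.re_natCast, QuadraticAlgebra.re_zero] at h1
  have : n = 0 := by exact_mod_cast h1
  omega

theorem F_one_mul (hF : Pf F) {z : Qd t c} (hz : z ≠ 0) : F ((1 : ℕ) : Qd t c) * F z = F z := by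
  rw [← hF.mul _ _ (natCast_ne_zero' one_pos) hz, Nat.cast_one, one_mul]

open scoped Classical in
/-- the product of one element with `G`, sorted by the content -/
theorem one_term (hF : Pf F) (hD : t ^ 2 < 4 * c) {a : Qd t c} (ha : a ≠ 0)
    {Z : ℝ} (hZ : 0 < Z) {D : Finset (Qd t c)}
    (hDD : ∀ z : Qd t c, prim z → (nm z : ℝ) ≤ nm a * (Real.exp 1 * Z) → z ∈ D)
    (hDp : ∀ z ∈ D, prim z) (k : ℤ) :
    (F a : ℂ) * ps k a / ((nm a : ℕ) : ℂ) * GG F Z k =
      ∑ z ∈ D, (F z : ℂ) * (((∑ n ∈ (nm a).divisors,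
        (if ∃ u : Qd t c, prim u ∧ a * u = (n : Qd t c) * z then
        Vg F (nm a) n (Real.log Z) z else 0) / nm z : ℝ) : ℂ) * ps k z) := by
  have hm0 : 0 < nm a := nm_pos hD ha
  have hmR : (0 : ℝ) < nm a := nm_posR hD ha
  have hmC : ((nm a : ℕ) : ℂ) ≠ 0 := by exact_mod_cast hmR.ne'
  set U := pball t c (Real.exp 1 * Z) with hU
  set G : Qd t c → ℂ := fun u => (1 / ((nm a : ℕ) : ℂ)) *
    (((F a : ℂ) * (F u : ℂ)) * (bg Z u : ℂ)) * ps k (a * u) with hG
  have e1 : (F a : ℂ) * ps k a / ((nm a : ℕ) : ℂ) * GG F Z k = ∑ u ∈ U, G u := by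
    unfold GG DPG
    rw [Finset.mul_sum]
    refine Finset.sum_congr rfl fun u _ => ?_
    simp only [hG]
    rw [ps_mul hD]
    ring
  have e2 : ∑ u ∈ U, G u = ∑ z ∈ D, ∑ n ∈ (nm a).divisors, ∑ u ∈ U,
      (if a * u = (n : Qd t c) * z then G u else 0) := by
    have h1 : ∀ u ∈ U, G u = ∑ z ∈ D, ∑ n ∈ (nm a).divisors,
        (if a * u = (n : Qd t c) * z then G u else 0) := by
      intro u hu
      rw [hU, mem_pball hD] at hu
      obtain ⟨n, hn, z, hz, he⟩ := content_exists hD ha hu.1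
      have hn0 : 0 < n := Nat.pos_of_mem_divisors hn
      have hnR : (1 : ℝ) ≤ n := by exact_mod_cast hn0
      have hzD : z ∈ D := by
        apply hDD z hz
        have h2 : nm a * nm u = n ^ 2 * nm z := by
          rw [← nm_mul, he, nm_mul, nm_natCast]
        have h3 : (nm a : ℝ) * nm u = (n : ℝ) ^ 2 * nm z := by exact_mod_cast h2
        have h4 : (0 : ℝ) ≤ nm z := Nat.cast_nonneg _
        have h5 : (1 : ℝ) ≤ (n : ℝ) ^ 2 := one_le_pow₀ hnR
        calc (nm z : ℝ) ≤ (n : ℝ) ^ 2 * nm z := le_mul_of_one_le_left h4 h5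
          _ = nm a * nm u := h3.symm
          _ ≤ nm a * (Real.exp 1 * Z) := mul_le_mul_of_nonneg_left hu.2 hmR.le
      rw [Finset.sum_eq_single_of_mem z hzD, Finset.sum_eq_single_of_mem n hn]
      · rw [if_pos he]
      · intro n' hn' hne
        rw [if_neg]
        intro h
        rw [he] at h
        exact hne (content_unique hz hz hn0.ne' h).1.symm
      · intro z' hz' hne
        refine Finset.sum_eq_zero fun n' hn' => ?_
        rw [if_neg]
        intro h
        rw [he] at h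
        exact hne (content_unique hz (hDp z' hz') hn0.ne' h).2.symm
    rw [Finset.sum_congr rfl h1, Finset.sum_comm]
    refine Finset.sum_congr rfl fun z _ => ?_
    rw [Finset.sum_comm]
  rw [e1, e2]
  refine Finset.sum_congr rfl fun z hz => ?_
  have hzp := hDp z hz
  have hN : (0 : ℝ) < nm z := nm_posR hD (prim_ne_zero hzp)
  have hNc : ((nm z : ℕ) : ℂ) ≠ 0 := by exact_mod_cast hN.ne'
  push_cast
  rw [Finset.sum_mul, Finset.mul_sum]
  refine Finset.sum_congr rfl fun n hn => ?_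
  have hn0 : 0 < n := Nat.pos_of_mem_divisors hn
  have hnR : (0 : ℝ) < n := by exact_mod_cast hn0
  have hnC : (n : ℂ) ≠ 0 := by exact_mod_cast hn0.ne'
  by_cases hex : ∃ u : Qd t c, prim u ∧ a * u = (n : Qd t c) * z
  · obtain ⟨u, hu, he⟩ := hex
    rw [if_pos ⟨u, hu, he⟩]
    have hNu : (0 : ℝ) < nm u := nm_posR hD (prim_ne_zero hu)
    have hNuc : ((nm u : ℕ) : ℂ) ≠ 0 := by exact_mod_cast hNu.ne'
    have h2 : nm a * nm u = n ^ 2 * nm z := by
      rw [← nm_mul, he, nm_mul, nm_natCast]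
    have h3 : (nm a : ℝ) * nm u = (n : ℝ) ^ 2 * nm z := by exact_mod_cast h2
    have h3c : ((nm a : ℕ) : ℂ) * ((nm u : ℕ) : ℂ) = (n : ℂ) ^ 2 * ((nm z : ℕ) : ℂ) := by
      exact_mod_cast h2
    have hlog : Real.log (nm u) = Real.log (nm z) + 2 * Real.log n - Real.log (nm a) := by
      have := congrArg Real.log h3
      rw [Real.log_mul hmR.ne' hNu.ne', Real.log_mul (by positivity) hN.ne', Real.log_pow] at this
      push_cast at this
      linarith
    have hgl : (F a : ℂ) * (F u : ℂ) = (F ((n : ℕ) : Qd t c) : ℂ) * (F z : ℂ) := by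
      have h4 : F a * F u = F ((n : ℕ) : Qd t c) * F z := by
        rw [← hF.mul _ _ ha (prim_ne_zero hu), he,
          hF.mul _ _ (natCast_ne_zero' hn0) (prim_ne_zero hzp)]
      exact_mod_cast h4
    have hps : ps k (a * u) = ps k z := by rw [he, ps_natCast_mul hD hn0]
    by_cases hin : u ∈ U
    · rw [Finset.sum_eq_single_of_mem u hin, if_pos he]
      · simp only [hG]
        rw [hps, hgl]
        unfold bg Vg
        rw [hlog]
        push_cast
        have hd : (1 / ((nm a : ℕ) : ℂ)) / ((nm u : ℕ) : ℂ) =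
            1 / (n : ℂ) ^ 2 / ((nm z : ℕ) : ℂ) := by
          rw [div_div, div_div, h3c]
        linear_combination ((F ((n : ℕ) : Qd t c) : ℂ) * (F z : ℂ) * ((w (Real.log (nm z) + 2 * Real.log n -
          Real.log (nm a) - Real.log Z) : ℝ) : ℂ) * ps k z) * hd
      · intro u' hu' hne
        rw [if_neg]
        intro h
        rw [← he] at h
        exact hne (mul_cancel hD ha h)
    · have hw : w (Real.log (nm u) - Real.log Z) = 0 := by
        apply bg_zero hD hZ hu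
        intro h
        apply hin
        rw [hU, mem_pball hD]
        exact ⟨hu, h⟩
      rw [Finset.sum_eq_zero]
      · unfold Vg
        rw [← hlog, hw]
        simp
      · intro u' hu'
        rw [if_neg]
        intro h
        rw [← he] at h
        rw [mul_cancel hD ha h] at hu'
        exact hin hu'
  · rw [if_neg hex, Finset.sum_eq_zero]
    · simp
    · intro u hu
      rw [if_neg]
      intro h
      rw [hU, mem_pball hD] at hu
      exact hex ⟨u, hu.1, h⟩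

theorem GG_eq (hD : t ^ 2 < 4 * c) {Y : ℝ} (hY : 0 < Y) (k : ℤ) :
    GG F Y k = ∑ z ∈ pball t c (Real.exp 2 * Y), (F z : ℂ) *
      ((((w (Real.log (nm z) - Real.log Y)) / nm z : ℝ) : ℂ) * ps k z) := by
  unfold GG DPG
  have h12 : Real.exp 1 * Y ≤ Real.exp 2 * Y :=
    mul_le_mul_of_nonneg_right (Real.exp_le_exp.2 (by norm_num)) hY.le
  refine Finset.sum_congr_of_eq_on_inter ?_ ?_ ?_
  · intro z hz hz'
    exfalso
    rw [mem_pball hD] at hz hz'
    exact hz' ⟨hz.1, hz.2.trans h12⟩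
  · intro z hz hz'
    rw [mem_pball hD] at hz hz'
    rw [bg_zero hD hY hz.1 (fun h => hz' ⟨hz.1, h⟩)]
    simp
  · intro z _ _
    unfold bg
    push_cast
    ring

theorem sum_eq (hF : Pf F) (hD : t ^ 2 < 4 * c) (he : Ele t c Ap Bp M E ρ ϖ) {H v₀ v₁ : ℕ}
    (hH : 1 ≤ H) {Y : ℝ} (hY : 0 < Y) (k : ℤ) :
    ∑ v ∈ Ico v₀ v₁, PE F M ϖ H v k * GG F (Y * Real.exp (-((v : ℝ) / H))) k =
      -∑ z ∈ pball t c (Real.exp 2 * Y), (F z : ℂ) *
        ((((dT M ϖ H v₀ v₁ Y z + dG F M ϖ H v₀ v₁ Y z) / nm z : ℝ) : ℂ) *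
          ps k z) := by
  classical
  have hH0 : (0 : ℝ) < H := by exact_mod_cast hH
  have h1 : ∀ v ∈ Ico v₀ v₁, PE F M ϖ H v k * GG F (Y * Real.exp (-((v : ℝ) / H))) k =
      -∑ z ∈ pball t c (Real.exp 2 * Y), ∑ m ∈ cellM M H v, (F z : ℂ) *
        (((((if ϖ m ∣ z then
          w (Real.log (nm z) - Real.log Y - (Real.log m - (v : ℝ) / H)) else 0) +
          ∑ n ∈ m.divisors.erase 1,
            (if ∃ u : Qd t c, prim u ∧ ϖ m * u = (n : Qd t c) * z then
              Vg F m n (Real.log Y - (v : ℝ) / H) z else 0)) / nm z : ℝ) : ℂ) * ps k z) := by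
    intro v _
    unfold PE
    rw [neg_mul, Finset.sum_mul, Finset.sum_comm]
    congr 1
    refine Finset.sum_congr rfl fun m hm => ?_
    obtain ⟨hmM, hm1, hm2⟩ := cellM_facts hm
    obtain ⟨-, -, hmpos, hϖ⟩ := ele_facts he hmM
    have hn := (he.elt m hmM).1
    have hm0 : (0 : ℝ) < m := by exact_mod_cast hmpos
    set Z : ℝ := Y * Real.exp (-((v : ℝ) / H)) with hZ
    have hZ0 : 0 < Z := by positivity
    have hlogZ : Real.log Z = Real.log Y - (v : ℝ) / H := by
      rw [hZ, Real.log_mul hY.ne' (Real.exp_pos _).ne', Real.log_exp]; ring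
    have hmZ : (m : ℝ) * (Real.exp 1 * Z) ≤ Real.exp 2 * Y := by
      have h5 : (m : ℝ) ≤ Real.exp (1 + (v : ℝ) / H) := by
        rw [← Real.log_le_iff_le_exp hm0]
        have h3 : ((v : ℝ) + 1) / H = (v : ℝ) / H + 1 / H := by ring
        have h4 : (1 : ℝ) / H ≤ 1 := by
          rw [div_le_one hH0]; exact_mod_cast hH
        linarith
      calc (m : ℝ) * (Real.exp 1 * Z) ≤ Real.exp (1 + (v : ℝ) / H) * (Real.exp 1 * Z) :=
            mul_le_mul_of_nonneg_right h5 (by positivity)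
        _ = Real.exp 2 * Y := by
            rw [hZ]
            have : Real.exp (1 + (v : ℝ) / H) * (Real.exp 1 * (Y * Real.exp (-((v : ℝ) / H)))) =
              (Real.exp (1 + (v : ℝ) / H) * Real.exp 1 * Real.exp (-((v : ℝ) / H))) * Y := by ring
            rw [this, ← Real.exp_add, ← Real.exp_add]
            congr 2
            ring
    have h2 := one_term hF hD hϖ hZ0 (D := pball t c (Real.exp 2 * Y))
      (by
        intro z hz hz2
        rw [hn] at hz2
        rw [mem_pball hD]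
        exact ⟨hz, hz2.trans hmZ⟩)
      (fun z hz => ((mem_pball hD).1 hz).1) k
    rw [hn] at h2
    rw [h2]
    refine Finset.sum_congr rfl fun z hz => ?_
    rw [mem_pball hD] at hz
    have h1m : 1 ∈ m.divisors := by
      rw [Nat.mem_divisors]
      exact ⟨one_dvd _, by omega⟩
    rw [← Finset.sum_div, ← Finset.add_sum_erase _ _ h1m, hlogZ]
    have hiff : (∃ u : Qd t c, prim u ∧ ϖ m * u = ((1 : ℕ) : Qd t c) * z) ↔ ϖ m ∣ z := by
      constructor
      · rintro ⟨u, -, hu⟩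
        rw [Nat.cast_one, one_mul] at hu
        exact ⟨u, hu.symm⟩
      · rintro ⟨u, rfl⟩
        refine ⟨u, prim_of_dvd hz.1 (Dvd.intro_left _ rfl), ?_⟩
        rw [Nat.cast_one, one_mul]
    have hF1 : (F ((1 : ℕ) : Qd t c) : ℂ) * (F z : ℂ) = (F z : ℂ) := by
      exact_mod_cast F_one_mul hF (prim_ne_zero hz.1)
    by_cases hd : ϖ m ∣ z
    · rw [if_pos (hiff.2 hd), if_pos hd]
      have e0 : Vg F m 1 (Real.log Y - (v : ℝ) / H) z = (F ((1 : ℕ) : Qd t c) : ℝ) *
          w (Real.log (nm z) - Real.log Y - (Real.log m - (v : ℝ) / H)) := by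
        unfold Vg
        have e1 : Real.log (nm z) + 2 * Real.log ((1 : ℕ) : ℝ) - Real.log m -
            (Real.log Y - (v : ℝ) / H) =
          Real.log (nm z) - Real.log Y - (Real.log m - (v : ℝ) / H) := by
          rw [Nat.cast_one, Real.log_one]
          ring
        rw [e1]
        simp
      rw [e0]
      push_cast
      rw [Nat.cast_one] at hF1
      linear_combination (((w (Real.log (nm z) - Real.log Y - (Real.log m - (v : ℝ) / H)) : ℝ) : ℂ) /
        ((nm z : ℕ) : ℂ) * ps k z) * hF1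
    · rw [if_neg (fun h => hd (hiff.1 h)), if_neg hd]
  rw [Finset.sum_congr rfl h1, Finset.sum_neg_distrib, Finset.sum_comm]
  congr 1
  refine Finset.sum_congr rfl fun z _ => ?_
  rw [← Finset.sum_congr rfl (fun v _ => Finset.mul_sum _ _ _), ← Finset.mul_sum]
  congr 1
  rw [← Finset.sum_congr rfl (fun v _ => Finset.sum_mul _ _ _), ← Finset.sum_mul]
  congr 1
  unfold dT dG
  rw [← Finset.sum_add_distrib, Finset.sum_div]
  push_cast
  refine Finset.sum_congr rfl fun v _ => ?_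
  rw [← Finset.sum_add_distrib, Finset.sum_div]

/-- the error is bounded by the one of the library -/
theorem dG_le (hF : Pf F) (H v₀ v₁ : ℕ) (Y : ℝ) (z : Qd t c) :
    |dG F M ϖ H v₀ v₁ Y z| ≤ |dB M ϖ H v₀ v₁ Y z| := by
  classical
  obtain ⟨A, hA⟩ : ∃ A : ℕ → ℕ → ℕ → ℝ, ∀ v m n, A v m n =
      if ∃ u : Qd t c, prim u ∧ ϖ m * u = (n : Qd t c) * z then
      w (Real.log (nm z) + 2 * Real.log n - Real.log m - (Real.log Y - (v : ℝ) / H)) /
        (n : ℝ) ^ 2 else 0 := ⟨_, fun _ _ _ => rfl⟩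
  have hA0 : ∀ v m n, 0 ≤ A v m n := by
    intro v m n
    rw [hA]
    split_ifs
    · exact div_nonneg (dec_w_nonneg _) (by positivity)
    · exact le_rfl
  have e1 : dB M ϖ H v₀ v₁ Y z = (gl z : ℝ) *
      ∑ v ∈ Ico v₀ v₁, ∑ m ∈ cellM M H v, ∑ n ∈ m.divisors.erase 1, A v m n := by
    unfold dB
    rw [Finset.mul_sum]
    refine Finset.sum_congr rfl fun v _ => ?_
    rw [Finset.mul_sum]
    refine Finset.sum_congr rfl fun m _ => ?_
    rw [Finset.mul_sum]
    refine Finset.sum_congr rfl fun n _ => ?_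
    rw [hA]
    unfold Vl
    split_ifs
    · ring
    · ring
  have e2 : |dB M ϖ H v₀ v₁ Y z| =
      ∑ v ∈ Ico v₀ v₁, ∑ m ∈ cellM M H v, ∑ n ∈ m.divisors.erase 1, A v m n := by
    rw [e1, abs_mul]
    have h1 : |(gl z : ℝ)| = 1 := by
      rcases gl_eq z with h | h <;> rw [h] <;> norm_num
    rw [h1, one_mul, abs_of_nonneg]
    exact Finset.sum_nonneg fun v _ => Finset.sum_nonneg fun m _ => Finset.sum_nonneg fun n _ =>
      hA0 v m n
  rw [e2]
  unfold dG
  refine (Finset.abs_sum_le_sum_abs _ _).trans (Finset.sum_le_sum fun v _ => ?_)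
  refine (Finset.abs_sum_le_sum_abs _ _).trans (Finset.sum_le_sum fun m _ => ?_)
  refine (Finset.abs_sum_le_sum_abs _ _).trans (Finset.sum_le_sum fun n _ => ?_)
  rw [hA]
  split_ifs
  · unfold Vg
    rw [mul_div_assoc, abs_mul, abs_of_nonneg (div_nonneg (dec_w_nonneg _) (by positivity))]
    have h1 : |(F ((n : ℕ) : Qd t c) : ℝ)| ≤ 1 := by exact_mod_cast hF.le _
    exact mul_le_of_le_one_left (div_nonneg (dec_w_nonneg _) (by positivity)) h1
  · simp

/-- DECI: the decomposition for general multiplicative functions, imaginary orders -/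
theorem deci (hF : Pf F) (hD : t ^ 2 < 4 * c) (_hlat : S_LAT t c) (hlati : S_LATI t c)
    (htk : S_TK t c) : Pool.Agent.H648.Q2.I.S_DEC F := by
  intro Ap Bp M E ρ ϖ he
  obtain ⟨C, hC, hb⟩ := Pool.Agent.W349.GS.dec_bound hD hlati htk he
  obtain ⟨K, hK, hKb⟩ := dB_mean hD hlati he
  refine ⟨4 * C + 6 * K, by positivity, fun H v₀ v₁ hH hHv hW Y hexp => ?_⟩
  have h := hb H v₀ v₁ hH hHv hW Y hexp
  set W : ℝ := ∑ v ∈ Ico v₀ v₁, mE M H v with hWdef
  have hY : 1 ≤ Y := by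
    refine le_trans ?_ hexp
    rw [← Real.exp_zero]
    apply Real.exp_le_exp.mpr; positivity
  have hY0 : 0 < Y := by linarith
  have hW0 : 0 < W := by linarith
  have hWc : (W : ℂ) ≠ 0 := by exact_mod_cast hW0.ne'
  have hk2 := hKb H v₀ v₁ hH Y hY0
  rw [← hWdef] at hk2
  refine ⟨pball t c (Real.exp 2 * Y), fun z => (F z : ℂ) *
    (((((w (Real.log (nm z) - Real.log Y) -
      dT M ϖ H v₀ v₁ Y z / W) - dG F M ϖ H v₀ v₁ Y z / W) / nm z : ℝ) : ℂ)), ?_, ?_, ?_⟩
  · intro z hz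
    rw [mem_pball hD] at hz
    exact hz
  · intro k
    rw [sum_eq hF hD he hH hY0 k, GG_eq hD hY0 k]
    unfold DPG
    rw [neg_mul_neg, Finset.mul_sum, ← Finset.sum_add_distrib]
    refine Finset.sum_congr rfl fun z hz => ?_
    rw [mem_pball hD] at hz
    have hzc : ((nm z : ℕ) : ℂ) ≠ 0 := by exact_mod_cast (nm_posR hD (prim_ne_zero hz.1)).ne'
    push_cast
    field_simp
    ring
  · rw [Finset.mul_sum] at h ⊢
    have hpt : ∀ z ∈ pball t c (Real.exp 2 * Y), Y * ‖(F z : ℂ) *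
        (((((w (Real.log (nm z) - Real.log Y) -
        dT M ϖ H v₀ v₁ Y z / W) - dG F M ϖ H v₀ v₁ Y z / W) / nm z : ℝ) : ℂ))‖ ^ 2 ≤
        4 * (Y * ‖((((gl z : ℝ) * (w (Real.log (nm z) - Real.log Y) -
          dT M ϖ H v₀ v₁ Y z / W) - dB M ϖ H v₀ v₁ Y z / W) / nm z : ℝ) : ℂ)‖ ^ 2) +
        6 / W ^ 2 * (Y * (dB M ϖ H v₀ v₁ Y z) ^ 2 / (nm z : ℝ) ^ 2) := by
      intro z hz
      rw [mem_pball hD] at hz
      have hN := nm_posR hD (prim_ne_zero hz.1)
      have hf1 : ‖(F z : ℂ)‖ ≤ 1 := by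
        rw [Complex.norm_intCast]
        exact_mod_cast hF.le z
      rw [norm_mul, Complex.norm_real, Complex.norm_real, Real.norm_eq_abs, Real.norm_eq_abs,
        mul_pow, sq_abs, sq_abs, div_pow, div_pow]
      have hf2 : ‖(F z : ℂ)‖ ^ 2 ≤ 1 := pow_le_one₀ (norm_nonneg _) hf1
      have hdG := dG_le (M := M) (ϖ := ϖ) hF H v₀ v₁ Y z
      have hdG2 : dG F M ϖ H v₀ v₁ Y z ^ 2 ≤ dB M ϖ H v₀ v₁ Y z ^ 2 := sq_le_sq.2 hdG
      set N : ℝ := (nm z : ℝ) with hNd
      set x : ℝ := w (Real.log N - Real.log Y) - dT M ϖ H v₀ v₁ Y z / W with hx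
      set B : ℝ := dB M ϖ H v₀ v₁ Y z with hBd
      set B' : ℝ := dG F M ϖ H v₀ v₁ Y z with hBd'
      have hg : (gl z : ℝ) ^ 2 = 1 := by
        rcases gl_eq z with h | h <;> rw [h] <;> norm_num
      have h1 : (x - B' / W) ^ 2 ≤ 4 * ((gl z : ℝ) * x - B / W) ^ 2 + 6 * (B / W) ^ 2 := by
        have h2 : (x - B' / W) ^ 2 ≤ 2 * x ^ 2 + 2 * (B' / W) ^ 2 := by
          nlinarith [sq_nonneg (x + B' / W)]
        have h3 : x ^ 2 = ((gl z : ℝ) * x) ^ 2 := by rw [mul_pow, hg, one_mul]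
        have h4 : ((gl z : ℝ) * x) ^ 2 ≤ 2 * ((gl z : ℝ) * x - B / W) ^ 2 + 2 * (B / W) ^ 2 := by
          nlinarith [sq_nonneg ((gl z : ℝ) * x - B / W - B / W)]
        have h5 : (B' / W) ^ 2 ≤ (B / W) ^ 2 := by
          rw [div_pow, div_pow]
          exact div_le_div_of_nonneg_right hdG2 (by positivity)
        linarith
      calc Y * (‖(F z : ℂ)‖ ^ 2 * ((x - B' / W) ^ 2 / N ^ 2))
          ≤ Y * (1 * ((x - B' / W) ^ 2 / N ^ 2)) := by
            apply mul_le_mul_of_nonneg_left _ hY0.le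
            exact mul_le_mul_of_nonneg_right hf2 (by positivity)
        _ = Y / N ^ 2 * (x - B' / W) ^ 2 := by ring
        _ ≤ Y / N ^ 2 * (4 * ((gl z : ℝ) * x - B / W) ^ 2 + 6 * (B / W) ^ 2) :=
            mul_le_mul_of_nonneg_left h1 (by positivity)
        _ = _ := by
            rw [div_pow B W 2]
            ring
    refine (Finset.sum_le_sum hpt).trans ?_
    rw [Finset.sum_add_distrib]
    refine (add_le_add (le_of_eq (Finset.mul_sum _ _ _).symm)
      (le_of_eq (Finset.mul_sum _ _ _).symm)).trans ?_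
    have h6 : 6 / W ^ 2 * (K * W) = 6 * K * (1 / W) := by
      field_simp
    have h7 := mul_le_mul_of_nonneg_left hk2 (by positivity : 0 ≤ 6 / W ^ 2)
    rw [h6] at h7
    have h8 : 0 ≤ 6 * K * (1 / (H : ℝ) ^ 2) := by positivity
    calc _ ≤ 4 * (C * (1 / W + 1 / (H : ℝ) ^ 2)) + 6 * K * (1 / W) :=
          add_le_add (mul_le_mul_of_nonneg_left h (by norm_num)) h7
      _ ≤ 4 * (C * (1 / W + 1 / (H : ℝ) ^ 2)) + 6 * K * (1 / W) + 6 * K * (1 / (H : ℝ) ^ 2) :=
          le_add_of_nonneg_right h8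
      _ = (4 * C + 6 * K) * (1 / W + 1 / (H : ℝ) ^ 2) := by ring

end Pool.Agent.H161.Q648
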